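import Pool.Agent.Helper50.HY.Stmts
import Pool.Agent.Helper7.PN.HLOC

/-!
# Sheet HY, row IMS: localization with the sharp constant
-/

set_option autoImplicit false

namespace Pool.Agent.Helper73.HY

open MeasureTheory Filter Pool.Agent.Helper95 Pool.Agent.Helper95.PW Pool.Agent.Helper50.HY

theorem im_psm (i : Fin 3) {g : R3 → ℝ} (hg : ContDiff ℝ (⊤ : ℕ∞) g) :
    ContDiff ℝ (⊤ : ℕ∞) (pd i g) := by
  unfold pd
  exact (hg.fderiv_right (m := (⊤ : ℕ∞)) (by simp)).clm_apply contDiff_const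

theorem im_pcs (i : Fin 3) {g : R3 → ℝ} (hg : HasCompactSupport g) :
    HasCompactSupport (pd i g) := by
  unfold pd
  exact (hg.fderiv (𝕜 := ℝ)).comp_left (g := fun L : R3 →L[ℝ] ℝ => L (Pi.single i 1)) rfl

theorem im_bd2 : ∃ B : ℝ, 0 ≤ B ∧ ∀ i z, |pd i (pd i hlP) z| ≤ B := by
  have h : ∀ i : Fin 3, ∃ B : ℝ, ∀ z, ‖pd i (pd i hlP) z‖ ≤ B := fun i =>
    (im_psm i (im_psm i hl_sm)).continuous.bounded_above_of_compact_support
      (im_pcs i (im_pcs i hl_cs))
  choose B hB using h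
  refine ⟨∑ i, B i, Finset.sum_nonneg fun i _ => (norm_nonneg _).trans (hB i 0), fun i z => ?_⟩
  rw [← Real.norm_eq_abs]
  exact (hB i z).trans
    (Finset.single_le_sum (fun j _ => (norm_nonneg _).trans (hB j 0)) (Finset.mem_univ i))

theorem im_pd2 {i : Fin 3} {z : R3} (h : 2 < z 0 ^ 2 + z 1 ^ 2 + z 2 ^ 2) :
    pd i (pd i hlP) z = 0 := by
  have h1 : z ∉ tsupport (pd i hlP) := by
    have h3 : tsupport (pd i hlP) ⊆ {z : R3 | z 0 ^ 2 + z 1 ^ 2 + z 2 ^ 2 ≤ 2} := by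
      refine closure_minimal (fun z hz => ?_) (isClosed_le (by fun_prop) continuous_const)
      by_contra h2
      exact hz (hl_pd0 (not_le.1 h2))
    exact fun h2 => not_lt.2 (h3 h2) h
  conv_lhs => unfold pd
  rw [show fderiv ℝ (fun y => fderiv ℝ hlP y (Pi.single i 1)) z = 0 from
    fderiv_of_notMem_tsupport ℝ h1]
  rfl

/-- derivative of a function of the scaled variable `x k` -/
theorem im_ch {n : ℕ} (d : ℝ) (a : R3) (k : Fin n) (i : Fin 3) {g : R3 → ℝ}
    (hg : ContDiff ℝ (⊤ : ℕ∞) g) {v : Cf n → ℝ} (h1 : ContDiff ℝ (⊤ : ℕ∞) v) (x : Cf n) :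
    dv k i (fun x => g (d⁻¹ • (x k - a)) * (v x * v x)) x =
      d⁻¹ * pd i g (d⁻¹ • (x k - a)) * (v x * v x) +
      g (d⁻¹ • (x k - a)) * (2 * v x * dv k i v x) := by
  have h2 : HasFDerivAt (fun x : Cf n => d⁻¹ • (x k - a))
      (d⁻¹ • (ContinuousLinearMap.proj k : Cf n →L[ℝ] R3)) x :=
    ((ContinuousLinearMap.proj k : Cf n →L[ℝ] R3).hasFDerivAt.sub_const a).const_smul d⁻¹
  have hP : HasFDerivAt g (fderiv ℝ g (d⁻¹ • (x k - a))) (d⁻¹ • (x k - a)) :=
    (hg.differentiable (by simp) _).hasFDerivAt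
  have hv : HasFDerivAt v (fderiv ℝ v x) x := (h1.differentiable (by simp) x).hasFDerivAt
  have hm := (hP.comp x h2).mul (hv.mul hv)
  have e : fderiv ℝ (fun x => g (d⁻¹ • (x k - a)) * (v x * v x)) x = _ := hm.fderiv
  unfold dv pd
  rw [e]
  simp
  ring

theorem im_pm (i : Fin 3) {f g : R3 → ℝ} (hf : ContDiff ℝ (⊤ : ℕ∞) f)
    (hg : ContDiff ℝ (⊤ : ℕ∞) g) (z : R3) :
    pd i (fun z => f z * g z) z = pd i f z * g z + f z * pd i g z := by
  have h1 : HasFDerivAt f (fderiv ℝ f z) z := (hf.differentiable (by simp) _).hasFDerivAt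
  have h2 : HasFDerivAt g (fderiv ℝ g z) z := (hg.differentiable (by simp) _).hasFDerivAt
  have e : fderiv ℝ (fun z => f z * g z) z = _ := (h1.mul h2).fderiv
  unfold pd
  rw [e]
  simp
  ring

/-- integral of a derivative -/
theorem im_div {n : ℕ} (k : Fin n) (i : Fin 3) {F : Cf n → ℝ} (h1 : ContDiff ℝ (⊤ : ℕ∞) F)
    (h2 : HasCompactSupport F) : Integrable (dv k i F) ∧ ∫ x, dv k i F x = 0 := by
  have hc : Continuous (dv k i F) := by
    unfold dv
    exact (h1.continuous_fderiv (by simp)).clm_apply continuous_const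
  have hs : HasCompactSupport (dv k i F) := by
    unfold dv
    exact (h2.fderiv (𝕜 := ℝ)).comp_left (g := fun L : Cf n →L[ℝ] ℝ =>
      L (Pi.single k (Pi.single i 1))) rfl
  refine ⟨hc.integrable_of_hasCompactSupport hs, ?_⟩
  have h := integral_mul_fderiv_eq_neg_fderiv_mul_of_integrable (𝕜 := ℝ)
    (μ := (volume : Measure (Cf n))) (f := fun _ => (1 : ℝ)) (g := F)
    (v := Pi.single k (Pi.single i 1)) ?_ ?_ ?_ ?_ ?_
  · simpa [dv] using h
  · simp
  · have h3 := hc.integrable_of_hasCompactSupport (μ := (volume : Measure (Cf n))) hs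
    have e : (fun x : Cf n => (1 : ℝ) * (fderiv ℝ F x) (Pi.single k (Pi.single i 1))) =
        dv k i F := by
      funext x
      rw [one_mul]
      rfl
    rw [e]
    exact h3
  · simpa using h1.continuous.integrable_of_hasCompactSupport h2
  · exact fun x _ => differentiableAt_const _
  · exact fun x _ => h1.differentiable (by simp) x

theorem im_one {n : ℕ} {d : ℝ} (a : R3) (k : Fin n) {v : Cf n → ℝ}
    (h1 : ContDiff ℝ (⊤ : ℕ∞) v) (h2 : HasCompactSupport v) :
    ∫ x, ∑ i, dv k i (hlW d a k v) x ^ 2 =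
      ∫ x, ∑ i, (hlP (d⁻¹ • (x k - a)) ^ 2 * dv k i v x ^ 2 -
        hlP (d⁻¹ • (x k - a)) * (d⁻¹ ^ 2 * pd i (pd i hlP) (d⁻¹ • (x k - a))) * v x ^ 2) := by
  have hz : ContDiff ℝ (⊤ : ℕ∞) (fun x : Cf n => d⁻¹ • (x k - a)) := by fun_prop
  set G : Fin 3 → R3 → ℝ := fun i z => hlP z * (d⁻¹ * pd i hlP z) with hG
  have hGs : ∀ i, ContDiff ℝ (⊤ : ℕ∞) (G i) := fun i =>
    hl_sm.mul (contDiff_const.mul (im_psm i hl_sm))
  set F : Fin 3 → Cf n → ℝ := fun i x => G i (d⁻¹ • (x k - a)) * (v x * v x) with hF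
  have hFs : ∀ i, ContDiff ℝ (⊤ : ℕ∞) (F i) := fun i =>
    ((hGs i).comp hz).mul (h1.mul h1)
  have hFc : ∀ i, HasCompactSupport (F i) := fun i => (h2.mul_left (f := v)).mul_left
  have hGd : ∀ i z, pd i (G i) z = pd i hlP z * (d⁻¹ * pd i hlP z) +
      hlP z * (d⁻¹ * pd i (pd i hlP) z) := by
    intro i z
    rw [hG]
    rw [im_pm i hl_sm (contDiff_const.mul (im_psm i hl_sm))]
    congr 2
    rw [im_pm i contDiff_const (im_psm i hl_sm)]
    simp [pd]
  have key : ∀ x, ∑ i, dv k i (hlW d a k v) x ^ 2 =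
      ∑ i, (hlP (d⁻¹ • (x k - a)) ^ 2 * dv k i v x ^ 2 -
        hlP (d⁻¹ • (x k - a)) * (d⁻¹ ^ 2 * pd i (pd i hlP) (d⁻¹ • (x k - a))) * v x ^ 2) +
      ∑ i, dv k i (F i) x := by
    intro x
    rw [← Finset.sum_add_distrib]
    refine Finset.sum_congr rfl fun i _ => ?_
    rw [hF]
    rw [im_ch d a k i (hGs i) h1 x, hGd, hl_dv d a k i h1 x, hG]
    ring
  have hW := hl_Wsm d a k h1 h2
  have hI1 : Integrable (fun x => ∑ i, dv k i (hlW d a k v) x ^ 2) :=
    integrable_finsetSum _ fun i _ => hl_dvi k i hW.1 hW.2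
  have hI2 : Integrable (fun x => ∑ i, dv k i (F i) x) :=
    integrable_finsetSum _ fun i _ => (im_div k i (hFs i) (hFc i)).1
  have e : (fun x => ∑ i, (hlP (d⁻¹ • (x k - a)) ^ 2 * dv k i v x ^ 2 -
        hlP (d⁻¹ • (x k - a)) * (d⁻¹ ^ 2 * pd i (pd i hlP) (d⁻¹ • (x k - a))) * v x ^ 2)) =
      fun x => (∑ i, dv k i (hlW d a k v) x ^ 2) - ∑ i, dv k i (F i) x := by
    funext x
    rw [key x]
    ring
  rw [e, integral_sub hI1 hI2, integral_finsetSum _ fun i _ => (im_div k i (hFs i) (hFc i)).1,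
    Finset.sum_eq_zero fun i _ => (im_div k i (hFs i) (hFc i)).2, sub_zero]

theorem IMS : ST_IMS := by
  obtain ⟨B, hB0, hB⟩ := im_bd2
  refine ⟨3 * B + 1, by positivity, ?_⟩
  intro n M k X d v hd hS h1 h2
  refine ⟨fun j => hlW d (X j) k v, fun j => hl_Wsm d (X j) k h1 h2, ?_, ?_, ?_⟩
  · intro j x hx
    change hlP (d⁻¹ • (x k - X j)) * v x = v x
    rw [hl_one (hl_q1 hd hx), one_mul]
  · have hvi := hl_int h1 h2
    have hDi : ∀ i, Integrable (fun x => dv k i v x ^ 2) := fun i => hl_dvi k i h1 h2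
    have hz : ∀ a : R3, Continuous (fun x : Cf n => d⁻¹ • (x k - a)) := fun a => by fun_prop
    have hvc : HasCompactSupport (fun x => v x ^ 2) := by
      have : (fun x => v x ^ 2) = fun x => v x * v x := by funext x; ring
      rw [this]
      exact h2.mul_left
    have hdc : ∀ i, HasCompactSupport (fun x => dv k i v x ^ 2) := by
      intro i
      have hs : HasCompactSupport (dv k i v) := by
        unfold dv
        exact (h2.fderiv (𝕜 := ℝ)).comp_left (g := fun L : Cf n →L[ℝ] ℝ =>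
          L (Pi.single k (Pi.single i 1))) rfl
      have : (fun x => dv k i v x ^ 2) = fun x => dv k i v x * dv k i v x := by funext x; ring
      rw [this]
      exact hs.mul_left
    have hdcc : ∀ i, Continuous (fun x => dv k i v x ^ 2) := by
      intro i
      have hc : Continuous (dv k i v) := by
        unfold dv
        exact (h1.continuous_fderiv (by simp)).clm_apply continuous_const
      exact hc.pow 2
    have hJ : ∀ j, Integrable (fun x : Cf n => ∑ i, (hlP (d⁻¹ • (x k - X j)) ^ 2 *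
        dv k i v x ^ 2 - hlP (d⁻¹ • (x k - X j)) *
        (d⁻¹ ^ 2 * pd i (pd i hlP) (d⁻¹ • (x k - X j))) * v x ^ 2)) := by
      intro j
      refine integrable_finsetSum _ fun i _ => Integrable.sub ?_ ?_
      · exact (((hl_sm.continuous.comp (hz (X j))).pow 2).mul
          (hdcc i)).integrable_of_hasCompactSupport (hdc i).mul_left
      · exact (((hl_sm.continuous.comp (hz (X j))).mul (continuous_const.mul
          ((im_psm i (im_psm i hl_sm)).continuous.comp (hz (X j))))).mul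
          (h1.continuous.pow 2)).integrable_of_hasCompactSupport hvc.mul_left
    have e : ∑ j, ∫ x, ∑ i, dv k i (hlW d (X j) k v) x ^ 2 =
        ∫ x, ∑ j, ∑ i, (hlP (d⁻¹ • (x k - X j)) ^ 2 * dv k i v x ^ 2 -
          hlP (d⁻¹ • (x k - X j)) * (d⁻¹ ^ 2 * pd i (pd i hlP) (d⁻¹ • (x k - X j))) *
            v x ^ 2) := by
      rw [integral_finsetSum _ fun j _ => hJ j]
      exact Finset.sum_congr rfl fun j _ => im_one (X j) k h1 h2
    rw [e]
    have e2 : (∫ x, ∑ i, dv k i v x ^ 2) + (3 * B + 1) / d ^ 2 * ∫ x, v x ^ 2 =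
        ∫ x, ((∑ i, dv k i v x ^ 2) + (3 * B + 1) / d ^ 2 * v x ^ 2) := by
      rw [integral_add (integrable_finsetSum _ fun i _ => hDi i) (hvi.const_mul _),
        integral_const_mul]
    rw [e2]
    refine integral_mono (integrable_finsetSum _ fun j _ => hJ j)
      ((integrable_finsetSum _ fun i _ => hDi i).add (hvi.const_mul _)) fun x => ?_
    have s2 : ∑ j, hlP (d⁻¹ • (x k - X j)) ^ 2 ≤ 1 := by
      refine hl_sep hS (fun w => hlP (d⁻¹ • w) ^ 2) _ (fun z => sq_nonneg _)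
        (fun z => ?_) (fun z hz => ?_) (x k)
      · exact pow_le_one₀ (hl_nn _) (hl_le _)
      · rw [hl_zero (hl_q hd hz).le]
        simp
    have s1 : ∑ j, ∑ i, (|pd i (pd i hlP) (d⁻¹ • (x k - X j))|) ≤ 3 * B := by
      refine hl_sep hS (fun w => ∑ i, |pd i (pd i hlP) (d⁻¹ • w)|) _
        (fun z => Finset.sum_nonneg fun i _ => abs_nonneg _)
        (fun z => ?_) (fun z hz => ?_) (x k)
      · refine (Finset.sum_le_sum fun i _ => hB i _).trans (le_of_eq ?_)
        simp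
      · exact Finset.sum_eq_zero fun i _ => by rw [im_pd2 (hl_q hd hz), abs_zero]
    have hvx : 0 ≤ v x ^ 2 := sq_nonneg _
    have hdi : 0 ≤ d⁻¹ ^ 2 := by positivity
    calc ∑ j, ∑ i, (hlP (d⁻¹ • (x k - X j)) ^ 2 * dv k i v x ^ 2 -
          hlP (d⁻¹ • (x k - X j)) * (d⁻¹ ^ 2 * pd i (pd i hlP) (d⁻¹ • (x k - X j))) * v x ^ 2) ≤
          ∑ j, ∑ i, (hlP (d⁻¹ • (x k - X j)) ^ 2 * dv k i v x ^ 2 +
          d⁻¹ ^ 2 * v x ^ 2 * |pd i (pd i hlP) (d⁻¹ • (x k - X j))|) := by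
          refine Finset.sum_le_sum fun j _ => Finset.sum_le_sum fun i _ => ?_
          have a1 := hl_nn (d⁻¹ • (x k - X j))
          have a2 := hl_le (d⁻¹ • (x k - X j))
          have a3 : -(hlP (d⁻¹ • (x k - X j)) * pd i (pd i hlP) (d⁻¹ • (x k - X j))) ≤
              |pd i (pd i hlP) (d⁻¹ • (x k - X j))| := by
            have b1 : -(pd i (pd i hlP) (d⁻¹ • (x k - X j))) ≤
              |pd i (pd i hlP) (d⁻¹ • (x k - X j))| := neg_le_abs _
            have b2 := abs_nonneg (pd i (pd i hlP) (d⁻¹ • (x k - X j)))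
            nlinarith [mul_le_mul_of_nonneg_left b1 a1, mul_le_mul_of_nonneg_right a2 b2]
          have a4 := mul_le_mul_of_nonneg_left a3 (mul_nonneg hdi hvx)
          nlinarith [a4]
      _ = (∑ j, hlP (d⁻¹ • (x k - X j)) ^ 2) * (∑ i, dv k i v x ^ 2) +
          d⁻¹ ^ 2 * v x ^ 2 * ∑ j, ∑ i, |pd i (pd i hlP) (d⁻¹ • (x k - X j))| := by
          simp only [Finset.sum_add_distrib, ← Finset.mul_sum, Finset.sum_mul]
      _ ≤ 1 * (∑ i, dv k i v x ^ 2) + d⁻¹ ^ 2 * v x ^ 2 * (3 * B) :=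
          add_le_add (mul_le_mul_of_nonneg_right s2 (Finset.sum_nonneg fun i _ => sq_nonneg _))
            (mul_le_mul_of_nonneg_left s1 (mul_nonneg hdi hvx))
      _ ≤ (∑ i, dv k i v x ^ 2) + (3 * B + 1) / d ^ 2 * v x ^ 2 := by
          rw [div_eq_inv_mul, ← inv_pow]
          nlinarith [mul_nonneg hdi hvx]
  · have hvi := hl_int h1 h2
    have hWi : ∀ j, Integrable (fun x => hlW d (X j) k v x ^ 2) := fun j => by
      obtain ⟨w1, w2⟩ := hl_Wsm d (X j) k h1 h2
      exact hl_int w1 w2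
    rw [← integral_finsetSum _ fun j _ => hWi j]
    refine integral_mono (integrable_finsetSum _ fun j _ => hWi j) hvi fun x => ?_
    have s2 : ∑ j, hlP (d⁻¹ • (x k - X j)) ^ 2 ≤ 1 := by
      refine hl_sep hS (fun w => hlP (d⁻¹ • w) ^ 2) _ (fun z => sq_nonneg _)
        (fun z => ?_) (fun z hz => ?_) (x k)
      · exact pow_le_one₀ (hl_nn _) (hl_le _)
      · rw [hl_zero (hl_q hd hz).le]
        simp
    calc ∑ j, hlW d (X j) k v x ^ 2 = (∑ j, hlP (d⁻¹ • (x k - X j)) ^ 2) * v x ^ 2 := by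
          rw [Finset.sum_mul]
          refine Finset.sum_congr rfl fun j _ => ?_
          unfold hlW
          ring
      _ ≤ 1 * v x ^ 2 := mul_le_mul_of_nonneg_right s2 (sq_nonneg _)
      _ = v x ^ 2 := one_mul _

end Pool.Agent.Helper73.HY
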